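import Pool.Agent.Helper10.BB.Ct
import Pool.Agent.Helper10.BB.Zt

/-!
# The Beilinson–Bloch conjecture for powers of cubic twists, in every degree

Let `K = ℚ(ω)`, `ω² + ω + 1 = 0`, with ring of integers `ℤ[ω]`. Let `D` be a cube-free Eisenstein integer which is
congruent to `± ω` or `± ω²` modulo `3` (these are two thirds of the cube-free `D` prime to `3`), and `E_D` the
elliptic curve `y² + D y = x³` over `K` (isomorphic to `x³ + y³ = D` over `K`). It has complex multiplication by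
`ℤ[ω]`, and its Hecke character is `(p) ↦ conj (D / p)₃ * p` for the primes `p ≡ 1 mod 3` (generators of all the prime
ideals but `(√-3)`), where `(D / p)₃` is the cubic residue symbol.

So for a product `X` of curves `E_D` and `E_{D²}`, with any multiplicities, the representation `H^(2m-1)(X)` of
`Gal(Kbar / K)` is a direct sum of characters `χ_D ^ j ψ ^ a conj ψ ^ b` with `a + b = 2 m - 1`, where
`ψ((p)) = p`, `χ_D((p)) = (D / p)₃` and `j = 0, 1, 2`; for `X = E_D ^ N` we have `j ≡ b - a mod 3` and `a, b ≤ N`. Hence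
`L(H^(2m-1)(X), s)` is a product of the `L`-functions of these characters. (All of them are ramified at `√-3`, as the
weight `a + b` is odd, and for `j = 1, 2` also at all the primes dividing `D`.)

Put `c = ∏ (1 - 3^(-2n-1)) = 0.6390...`.

Theorem: for a set of `D` of lower density at least `c` among the cube-free `D ≡ ± ω, ± ω² mod 3`, ordered by norm:

* the curves `E_D : y² + D y = x³` and `E_{D²} : y² + D² y = x³` have only finitely many points over `K`, and
* for **all** `m ≥ 1`, **all** `a + b = 2 m - 1` and `j = 1, 2` the function `L(χ_D ^ j ψ ^ a conj ψ ^ b, s)` is entire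
  and does not vanish at the centre `s = m`; the same for `j = 0` if `|a - b|` is congruent to `1, 3` or `7` modulo `12`
  (in the other cases, `5, 9, 11`, the sign in the functional equation is `-1`).

Hence for **all** `m` and all `N ≤ 8` the function `L(H^(2m-1)(E_D ^ N), s)` does not vanish at `s = m`
(`j = 0` occurs only for `|a - b| = 3`), as Beilinson and Bloch predict if all the groups
`CH^m(E_D ^ N)_hom` are torsion; the same for all products of at most four curves `E_D`, `E_{D²}`, and for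
all `N` if `m ≤ 4`. For `m = 1` both sides are zero for all products of curves `E_D` and `E_{D²}`.
-/

set_option autoImplicit false

namespace Pool.Agent.Results.MP_b8021b_nt.CubicTwistsEveryDegree

/-- The Eisenstein integers `ℤ[ω]`, `ω² = -1 - ω`: `⟨x, y⟩` is `x + y ω`. -/
abbrev Eis : Type := QuadraticAlgebra ℤ (-1) (-1)

/-- `ω` -/
def omega : Eis := ⟨0, 1⟩

/-- The norm `x² - x y + y²` of `x + y ω`. -/
def norm (α : Eis) : ℤ := α.re ^ 2 - α.re * α.im + α.im ^ 2

/-- The complex number `x + y ω`, `ω = (-1 + √-3) / 2`. -/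
noncomputable def toComplex (α : Eis) : ℂ := α.re + α.im * ⟨-1 / 2, Real.sqrt 3 / 2⟩

/-- The primes `p` of `ℤ[ω]` with `p ≡ 1 mod 3`: one generator for each prime ideal prime to `3`. -/
def PrimaryPrime : Type := {p : Eis // Prime p ∧ (3 : Eis) ∣ p - 1}

open Classical in
/-- The cubic residue symbol `(α / p)₃` for a prime `p` of `ℤ[ω]` prime to `3`: the cube root of
unity `u` with `u ≡ α ^ ((N(p) - 1) / 3)` modulo `p`, and `0` if `p` divides `α` (there is no such
`u`). -/
noncomputable def symbol (p α : Eis) : ℂ :=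
  if h : ∃ u : Eis, u ^ 3 = 1 ∧ p ∣ α ^ (((norm p).natAbs - 1) / 3) - u then
    toComplex (Classical.choose h) else 0

/-- `L` is entire and it is the Hecke `L`-function of `χ * ψ ^ a * conj ψ ^ b`: the Euler product over the
primes `p ≡ 1 mod 3`, in the half plane of absolute convergence. -/
def IsLFunction (χ : Eis → ℂ) (a b : ℕ) (L : ℂ → ℂ) : Prop :=
  Differentiable ℂ L ∧ ∀ s : ℂ, ((a : ℝ) + b) / 2 + 1 < s.re →
    HasProd (fun p : PrimaryPrime => (1 - χ p.1 * toComplex p.1 ^ a *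
      (starRingEnd ℂ) (toComplex p.1) ^ b * ((norm p.1 : ℤ) : ℂ) ^ (-s))⁻¹) (L s)

/-- The cube-free Eisenstein integers `D ≡ ± ω, ± ω² mod 3` of norm at most `X`. -/
def Twists (X : ℝ) : Set Eis :=
  {D | (D ≠ 0 ∧ ∀ d : Eis, d ^ 3 ∣ D → IsUnit d) ∧
    ((3 : Eis) ∣ D - omega ∨ (3 : Eis) ∣ D + omega ∨ (3 : Eis) ∣ D - omega ^ 2 ∨
      (3 : Eis) ∣ D + omega ^ 2) ∧ ((norm D : ℤ) : ℝ) ≤ X}

/-- The curve `y² + c y = x³` has only finitely many points over `K = ℚ(ω)`. -/
def FinitelyManyPoints (c : Eis) : Prop :=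
  {P : FractionRing Eis × FractionRing Eis |
    P.2 ^ 2 + algebraMap Eis (FractionRing Eis) c * P.2 = P.1 ^ 3}.Finite

/-- The curves `y² + D y = x³` and `y² + D² y = x³` have only finitely many points over `ℚ(ω)`, and for
all `m ≥ 1`, all `a + b = 2 m - 1` and all `j = 0, 1, 2` the function `L(χ_D ^ j * ψ ^ a * conj ψ ^ b, s)`,
`χ_D(p) = (D / p)₃`, is entire and not zero at the centre `s = m`, unless `j = 0` and `|a - b|` is congruent to
`5, 9` or `11` modulo `12`. -/
def Good (D : Eis) : Prop :=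
  FinitelyManyPoints D ∧ FinitelyManyPoints (D ^ 2) ∧
  ∀ m a b j : ℕ, 1 ≤ m → a + b = 2 * m - 1 → j ≤ 2 →
    (j ≠ 0 ∨ ((a : ℤ) - b).natAbs % 12 = 1 ∨ ((a : ℤ) - b).natAbs % 12 = 3 ∨
      ((a : ℤ) - b).natAbs % 12 = 7) →
    ∃ L : ℂ → ℂ, IsLFunction (fun p => symbol p D ^ j) a b L ∧ L m ≠ 0

open Pool.Agent.Helper10.CN Pool.Agent.Helper10.GD

lemma toComplex_eq (α : Eis) : toComplex α = Pool.Agent.Y692.QS.toC α :=
  (Pool.Agent.Y692.QS.toC_apply α).symm

lemma symbol_eq (p α : Eis) : symbol p α = Pool.Agent.Helper10.BS.sym p α := by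
  unfold symbol Pool.Agent.Helper10.BS.sym
  simp only [toComplex_eq]
  rfl

lemma lfun_of {χ : Eis → ℂ} {a b m : ℕ} (h : Pool.Agent.Helper10.BI.LV χ a b m) :
    ∃ L : ℂ → ℂ, IsLFunction χ a b L ∧ L m ≠ 0 := by
  obtain ⟨L, ⟨h1, h2⟩, h3⟩ := h
  refine ⟨L, ⟨h1, fun s hs => ?_⟩, h3⟩
  have h4 := h2 s hs
  simp only [← toComplex_eq] at h4
  exact h4

lemma good_of {D : Eis} (h : GG D) : Good D := by
  refine ⟨h.1, h.2.1, fun m a b j hm hab hj hd => ?_⟩
  obtain ⟨h1, h2⟩ := h.2.2 m a b hm hab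
  simp only [← symbol_eq] at h1 h2
  have hj' : j = 0 ∨ j = 1 ∨ j = 2 := by omega
  rcases hj' with rfl | rfl | rfl
  · have h3 := Pool.Agent.Helper10.ZT.lv_zero hm hab (by omega)
    refine lfun_of (h3.congr fun p => ?_)
    rw [pow_zero]
  · refine lfun_of (h1.congr fun p => ?_)
    rw [pow_one]
  · exact lfun_of h2

lemma twists_eq (X : ℝ) : Twists X = TwC X := by
  have h : ∀ D : Eis, ((3 : Eis) ∣ D - omega ∨ (3 : Eis) ∣ D + omega ∨ (3 : Eis) ∣ D - omega ^ 2 ∨
      (3 : Eis) ∣ D + omega ^ 2) ↔ ∃ i, (3 : Eis) ∣ D - uu i := by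
    intro D
    have e1 : uu (true, true) = omega := by decide
    have e2 : uu (false, true) = -omega := by decide
    have e3 : uu (true, false) = omega ^ 2 := by decide
    have e4 : uu (false, false) = -omega ^ 2 := by decide
    constructor
    · rintro (h | h | h | h)
      · exact ⟨(true, true), by rw [e1]; exact h⟩
      · exact ⟨(false, true), by rw [e2, sub_neg_eq_add]; exact h⟩
      · exact ⟨(true, false), by rw [e3]; exact h⟩
      · exact ⟨(false, false), by rw [e4, sub_neg_eq_add]; exact h⟩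
    · rintro ⟨⟨s, k⟩, h⟩
      cases s <;> cases k
      · rw [e4, sub_neg_eq_add] at h
        exact Or.inr (Or.inr (Or.inr h))
      · rw [e2, sub_neg_eq_add] at h
        exact Or.inr (Or.inl h)
      · rw [e3] at h
        exact Or.inr (Or.inr (Or.inl h))
      · rw [e1] at h
        exact Or.inl h
  ext D
  constructor
  · rintro ⟨h1, h2, h3⟩
    exact ⟨h1, (h D).1 h2, h3⟩
  · rintro ⟨h1, h2, h3⟩
    exact ⟨h1, (h D).2 h2, h3⟩

/-- **Main theorem.** Put `c = ∏ (1 - 3^(-2n-1)) > 0.639`.  For every `ε > 0` the proportion of the `D`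
with `Good D` among the cube-free Eisenstein integers `D ≡ ± ω, ± ω² mod 3` of norm at most `X` (their
number is at least a constant times `X`) is at least `c - ε` for all large `X`. -/
theorem result :
    (639 / 1000 : ℝ) < ∏' n : ℕ, (1 - (1 / 3 : ℝ) ^ (2 * n + 1)) ∧
    (∀ X : ℝ, (Twists X).Finite) ∧
    (∃ c : ℝ, 0 < c ∧ ∃ X₁ : ℝ, ∀ X : ℝ, X₁ ≤ X → c * X ≤ ((Twists X).ncard : ℝ)) ∧
    ∀ ε : ℝ, 0 < ε → ∃ X₀ : ℝ, ∀ X : ℝ, X₀ ≤ X →
      ((∏' n : ℕ, (1 - (1 / 3 : ℝ) ^ (2 * n + 1))) - ε) * ((Twists X).ncard : ℝ) ≤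
        ({D ∈ Twists X | Good D}.ncard : ℝ) := by
  refine ⟨?_, fun X => by rw [twists_eq]; exact TwC_fin X, ?_, fun ε hε => ?_⟩
  · have h := Pool.Agent.Y703.XL.t_C9.2.2.2.1
    have h1 : (0.639 : ℝ) < ∏' i : ℕ, (1 - (1 / 3 : ℝ) ^ (2 * i + 1)) := h
    norm_num at h1 ⊢
    exact h1
  · simp only [twists_eq]
    exact low_class
  · obtain ⟨X₀, h⟩ := count Good (fun k D hD => ⟨good_of (gg_of hD).1, good_of (gg_of hD).2⟩) ε hε
    refine ⟨X₀, fun X hX => ?_⟩
    rw [twists_eq]
    exact h X hX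

end Pool.Agent.Results.MP_b8021b_nt.CubicTwistsEveryDegree
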