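import Pool.Agent.Helper13.BB.Asm
import Pool.Graph.R_seed8.W164.RC.Bad

/-!
# The order of vanishing in the Beilinson–Bloch conjecture over the ray class fields of any number field

`M` is ANY number field and `X` a smooth projective variety over `M` such that the representation
`V = H^(2m-1)(X)` of `Gal(Mbar / M)` is a direct sum of one dimensional ones, i.e. of `g` Hecke characters
`θ i` of `M`, of infinity types `n i` with `n i φ + n i (conj φ) = 2 m - 1` (the Hodge types; then `M`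
has no real embeddings).  Examples: abelian varieties with complex multiplication defined over `M` and
their products (all `m`), Fermat hypersurfaces of degree `d` over fields which contain the `d`-th roots
of unity.

Let `𝔮` be an ideal divisible by the conductors of the `θ i` and `K` the narrow ray class field of `M`
of modulus `𝔮`; its Galois group is the narrow ray class group, of order `h`, and its characters are the
`χ` in `Characters 𝔮`.  Then `CH^m(X_K)_hom ⊗ ℂ` is the direct sum of its `χ`-components, and the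
conjecture says that the dimension of the `χ`-component (of `χ⁻¹`, to be precise) is the order `r(χ)` at
`s = m` of `L(V ⊗ χ, s)`, and that the rank of `CH^m(X_K)_hom` is `∑ r(χ)`, the order of `L(V_K, s)`.

We prove, with constants which depend only on `M` and `m`, and with `U` the number of residue classes
modulo `𝔮` which contain a unit of `M`:

* the functions `L(V ⊗ χ, s)` and `L(V_K, s)` have an analytic continuation (entire, up to the Euler
  factors at the places above `𝔮`), and the order of `L(V_K, s)` at `s = m` is `∑ r(χ)`,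
* `∑ r(χ) ≤ C g h (1 + log U)`: the mean of the orders is at most `C g (1 + log U)`,
* the number of the `χ` with `r(χ) ≥ k` is at most `C g h U exp (-c k / g)`.

If `M` is imaginary quadratic then `U ≤ 6`: the mean of the orders is bounded, uniformly in `𝔮`, and the
proportion of the `χ` with order at least `k` decays exponentially.  The convexity bound for the orders is
`C g log N(𝔮)`; there is a saving for all moduli `𝔮` for which the units of `M` occupy at most
`N(𝔮)^δ` residue classes, `δ` small (such `𝔮` exist for every `M`).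

Proof.  The twists `θ i χ / |θ i χ|` are all unitary Hecke characters modulo `𝔮` of a certain reduced
infinity type, which is not zero because the weight `2 m - 1` is odd; the library's mollified large sieve
bounds the number of zeros of their L-functions in discs of radius `1 / log N(𝔮)` around the centre
(`Pool.Agent.N784.CZ.cen_avg`).  New: the reduction of all weights to unitary characters
(`Pool.Agent.Helper13.BB.Hk`), the Euler products over `K` (`Glue`), the tail with the characters of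
conductor one (`Tail`), the uniformity in the types (`Unif`), the twists of `V` (`Asm`).
-/

set_option autoImplicit false

open Complex NumberField IsDedekindDomain

namespace Pool.Agent.Results.MP_b8021b_nt.EveryBaseField

/-- `K` is the (narrow) ray class field of `M` of modulus `𝔮`: `ι` embeds the ring of integers of `M`
into that of `K`, and `art` is the Artin map (used only for the ideals prime to `𝔮`), with values in
the automorphisms of the ring of integers of `K` (equivalently, of `K`), such that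
* `art` is multiplicative,
* the integers of `M` are the invariants (so `K/M` is Galois and `art` is surjective onto its group),
* the kernel consists of the ideals `𝔞` with `(a) 𝔞 = (b)` for some totally positive
  `a, b ≡ 1 mod 𝔮` (so the Galois group is the narrow ray class group modulo `𝔮`),
* `K/M` is unramified outside `𝔮`: the inertia group at every prime `v` of `K` not dividing `𝔮` is
  trivial,
* for every prime ideal `𝔭` not dividing `𝔮`, `art 𝔭` is the Frobenius automorphism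
  `x ↦ x ^ N(𝔭)` at all primes `v` of `K` above `𝔭`. -/
structure IsRayClassField {M : Type} [Field M] [NumberField M] (𝔮 : Ideal (𝓞 M)) (K : Type)
    [Field K] [NumberField K] (ι : 𝓞 M →+* 𝓞 K) (art : Ideal (𝓞 M) → (𝓞 K ≃+* 𝓞 K)) : Prop where
  mul : ∀ 𝔞 𝔟 : Ideal (𝓞 M), IsCoprime 𝔞 𝔮 → IsCoprime 𝔟 𝔮 → art (𝔞 * 𝔟) = art 𝔞 * art 𝔟
  invariants : ∀ x : 𝓞 K, (∀ 𝔞 : Ideal (𝓞 M), IsCoprime 𝔞 𝔮 → art 𝔞 x = x) ↔ x ∈ ι.range
  kernel : ∀ 𝔞 : Ideal (𝓞 M), IsCoprime 𝔞 𝔮 → (art 𝔞 = 1 ↔ ∃ a b : 𝓞 M, a - 1 ∈ 𝔮 ∧ b - 1 ∈ 𝔮 ∧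
    (∀ τ : M →+* ℝ, 0 < τ a) ∧ (∀ τ : M →+* ℝ, 0 < τ b) ∧ Ideal.span {a} * 𝔞 = Ideal.span {b})
  unramified : ∀ v : HeightOneSpectrum (𝓞 K), ¬ 𝔮.map ι ≤ v.asIdeal →
    ∀ 𝔞 : Ideal (𝓞 M), IsCoprime 𝔞 𝔮 → (∀ x, art 𝔞 x - x ∈ v.asIdeal) → art 𝔞 = 1
  frobenius : ∀ 𝔭 : Ideal (𝓞 M), 𝔭.IsPrime → IsCoprime 𝔭 𝔮 → ∀ v : HeightOneSpectrum (𝓞 K),
    𝔭.map ι ≤ v.asIdeal → ∀ x : 𝓞 K, art 𝔭 x - x ^ Ideal.absNorm 𝔭 ∈ v.asIdeal

section

variable {M : Type} [Field M] [NumberField M]

/-- `θ`, a function on the ideals, is a Hecke character of `M` modulo `𝔮` (its conductor divides `𝔮`)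
of infinity type `n` and of weight `2 m - 1`:
* `n φ + n (conj φ) = 2 m - 1` for all embeddings `φ` (so `M` has no real embeddings),
* `θ` is multiplicative on the ideals prime to `𝔮`,
* `θ((x)) = ∏ φ(x) ^ n(φ)` for `x ≡ 1 mod 𝔮`.
Only the values of `θ` at the ideals prime to `𝔮` are used. -/
structure IsHeckeCharacter (m : ℕ) (𝔮 : Ideal (𝓞 M)) (n : (M →+* ℂ) → ℕ)
    (θ : Ideal (𝓞 M) → ℂ) : Prop where
  weight : ∀ φ : M →+* ℂ, n φ + n ((starRingEnd ℂ).comp φ) = 2 * m - 1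
  mul : ∀ 𝔞 𝔟 : Ideal (𝓞 M), IsCoprime 𝔞 𝔮 → IsCoprime 𝔟 𝔮 → θ (𝔞 * 𝔟) = θ 𝔞 * θ 𝔟
  ray : ∀ x : 𝓞 M, x - 1 ∈ 𝔮 → θ (Ideal.span {x}) = ∏ φ : M →+* ℂ, φ (x : M) ^ n φ

/-- The characters of the narrow ray class group modulo `𝔮`, as functions on the ideals: they vanish
exactly at the ideals which are not prime to `𝔮`, are multiplicative, and `χ((x)) = 1` for the totally
positive `x ≡ 1 mod 𝔮`. -/
def Characters (𝔮 : Ideal (𝓞 M)) : Set (Ideal (𝓞 M) → ℂ) :=
  {χ | (∀ 𝔞, χ 𝔞 ≠ 0 ↔ IsCoprime 𝔞 𝔮) ∧ (∀ 𝔞 𝔟, χ (𝔞 * 𝔟) = χ 𝔞 * χ 𝔟) ∧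
    ∀ x : 𝓞 M, x - 1 ∈ 𝔮 → (∀ τ : M →+* ℝ, 0 < τ x) → χ (Ideal.span {x}) = 1}

/-- `Λ` is the L-function of `V ⊗ χ`, `V` the sum of the `θ i`, without the Euler factors at the primes
dividing `𝔮` (`χ` is zero there): it is entire, not identically zero near `s = m`, and for
`Re s > m + 1/2` it is the product over all primes `𝔭` of `M` of the factors
`∏ (1 - θ i (𝔭) χ(𝔭) N(𝔭)^(-s))⁻¹`. -/
structure IsTwistedLFunction (m : ℕ) {g : ℕ} (θ : Fin g → Ideal (𝓞 M) → ℂ) (χ : Ideal (𝓞 M) → ℂ)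
    (Λ : ℂ → ℂ) : Prop where
  entire : Differentiable ℂ Λ
  nonzero : analyticOrderAt Λ m ≠ ⊤
  euler : ∀ s : ℂ, (m : ℝ) + 1 / 2 < s.re → HasProd (fun 𝔭 : HeightOneSpectrum (𝓞 M) =>
    ∏ i, (1 - θ i 𝔭.asIdeal * χ 𝔭.asIdeal * (Ideal.absNorm 𝔭.asIdeal : ℂ) ^ (-s))⁻¹) (Λ s)

/-- the number of residue classes modulo `𝔮` which contain a unit of `M` -/
noncomputable def unitClasses (𝔮 : Ideal (𝓞 M)) : ℕ :=
  (Set.range (fun u : (𝓞 M)ˣ => Ideal.Quotient.mk 𝔮 (u : 𝓞 M))).ncard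

variable {K : Type} [Field K] [NumberField K]

/-- The residue degree `f` of the place `v` of `K` over `M`: `N(v) = N(𝔭)^f`, where `𝔭` is the prime of
`M` below `v`. -/
noncomputable def residueDegree (ι : 𝓞 M →+* 𝓞 K) (v : HeightOneSpectrum (𝓞 K)) : ℕ :=
  Nat.log (Ideal.absNorm (v.asIdeal.comap ι)) (Ideal.absNorm v.asIdeal)

/-- The Euler polynomial `∏ (1 - γ N(v)^(-s))` with the inverse roots `γ ∈ Γ v` (those of
`det (1 - Frob_v N(v)^(-s) | V^(I_v))`). -/
noncomputable def localPoly (Γ : HeightOneSpectrum (𝓞 K) → Multiset ℂ) (s : ℂ)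
    (v : HeightOneSpectrum (𝓞 K)) : ℂ :=
  ((Γ v).map fun γ => 1 - γ * (Ideal.absNorm v.asIdeal : ℂ) ^ (-s)).prod

open Classical in
/-- The Euler factor at `v` of `L(V_K, s)`, `V` the sum of the `θ i`.  If `v` is not in the finite set
`S` the eigenvalues of Frobenius are the `θ i (𝔭) ^ f`, where `𝔭` is the prime of `M` below `v` and `f`
the residue degree; for the places in `S` it is the factor given by `Γ`. -/
noncomputable def factor {g : ℕ} (θ : Fin g → Ideal (𝓞 M) → ℂ) (ι : 𝓞 M →+* 𝓞 K)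
    (S : Finset (HeightOneSpectrum (𝓞 K))) (Γ : HeightOneSpectrum (𝓞 K) → Multiset ℂ) (s : ℂ)
    (v : HeightOneSpectrum (𝓞 K)) : ℂ :=
  if v ∈ S then (localPoly Γ s v)⁻¹
  else ∏ i, (1 - θ i (v.asIdeal.comap ι) ^ residueDegree ι v *
    (Ideal.absNorm v.asIdeal : ℂ) ^ (-s))⁻¹

/-- `Λ` is the L-function `L(V_K, s)` of `V_K` over `K`, with the Euler factors given by `Γ` at the
places in `S`: it is analytic for `Re s > m - 1/2`, for `Re s > m + 1/2` it is the product over all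
places of `K` of the Euler factors, and its product with the (finitely many) local polynomials at the
places in `S` is entire. -/
structure IsLFunction (m : ℕ) {g : ℕ} (θ : Fin g → Ideal (𝓞 M) → ℂ) (ι : 𝓞 M →+* 𝓞 K)
    (S : Finset (HeightOneSpectrum (𝓞 K))) (Γ : HeightOneSpectrum (𝓞 K) → Multiset ℂ)
    (Λ : ℂ → ℂ) : Prop where
  analytic : AnalyticOnNhd ℂ Λ {s : ℂ | (m : ℝ) - 1 / 2 < s.re}
  euler : ∀ s : ℂ, (m : ℝ) + 1 / 2 < s.re → HasProd (factor θ ι S Γ s) (Λ s)
  entire : ∃ F : ℂ → ℂ, Differentiable ℂ F ∧ ∀ s : ℂ, (m : ℝ) - 1 / 2 < s.re →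
    F s = Λ s * ∏ v ∈ S, localPoly Γ s v

end

/-- **Main theorem.** Let `M` be a number field and `m ≥ 1`.  There are `c > 0` and `C` such that for all
ideals `𝔮 ≠ 0, (1)` of `M` and all sums `V` of `g ≥ 1` Hecke characters `θ i` of `M` modulo `𝔮` of
weight `2 m - 1`, the functions `L χ = L(V ⊗ χ, s)` exist for all characters `χ` of the narrow ray class
group modulo `𝔮`, at most `C g h U exp (-c k / g)` of them vanish at `s = m` to an order `≥ k`, the sum of
all the orders at `s = m` is at most `C g h (1 + log U)`, `h` the number of the `χ`, and for the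
narrow ray class field `K` of `M` modulo `𝔮`, every finite set `S` of places of `K` which contains those
dividing `𝔮`, and every choice of Euler factors in `S` with inverse roots of absolute value at most
`N(v)^(m - 1/2)`, the L-function `L(V_K, s)` exists and its order at `s = m` is the sum of the orders of
the `L χ`; in particular it is at most `C g [K : M] (1 + log U)`. -/
theorem result (M : Type) [Field M] [NumberField M] (m : ℕ) (hm : 1 ≤ m) :
    ∃ c C : ℝ, 0 < c ∧ ∀ (𝔮 : Ideal (𝓞 M)), 𝔮 ≠ ⊥ → 𝔮 ≠ ⊤ →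
    ∀ (g : ℕ) (n : Fin g → (M →+* ℂ) → ℕ) (θ : Fin g → Ideal (𝓞 M) → ℂ), 1 ≤ g →
      (∀ i, IsHeckeCharacter m 𝔮 (n i) (θ i)) →
    (Characters 𝔮).Finite ∧ ∃ L : (Ideal (𝓞 M) → ℂ) → ℂ → ℂ,
      (∀ χ ∈ Characters 𝔮, IsTwistedLFunction m θ χ (L χ)) ∧
      (∀ k : ℕ, ({χ ∈ Characters 𝔮 | k ≤ analyticOrderNatAt (L χ) m}.ncard : ℝ) ≤
        C * g * (Characters 𝔮).ncard * unitClasses 𝔮 * Real.exp (-(c * k / g))) ∧
      ∑ᶠ χ ∈ Characters 𝔮, (analyticOrderNatAt (L χ) m : ℝ) ≤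
        C * g * (Characters 𝔮).ncard * (1 + Real.log (unitClasses 𝔮)) ∧
      ∀ (K : Type) [Field K] [NumberField K] (ι : 𝓞 M →+* 𝓞 K)
        (art : Ideal (𝓞 M) → (𝓞 K ≃+* 𝓞 K)), IsRayClassField 𝔮 K ι art →
      ∀ (S : Finset (HeightOneSpectrum (𝓞 K))) (Γ : HeightOneSpectrum (𝓞 K) → Multiset ℂ),
        (∀ v : HeightOneSpectrum (𝓞 K), 𝔮.map ι ≤ v.asIdeal → v ∈ S) →
        (∀ v ∈ S, ∀ γ ∈ Γ v, ‖γ‖ ≤ (Ideal.absNorm v.asIdeal : ℝ) ^ ((m : ℝ) - 1 / 2)) →
      ∃ Λ : ℂ → ℂ, IsLFunction m θ ι S Γ Λ ∧ analyticOrderAt Λ m ≠ ⊤ ∧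
        analyticOrderNatAt Λ m = ∑ᶠ χ ∈ Characters 𝔮, analyticOrderNatAt (L χ) m ∧
        (analyticOrderNatAt Λ m : ℝ) ≤
          C * g * ((Module.finrank ℚ K : ℝ) / Module.finrank ℚ M) *
            (1 + Real.log (unitClasses 𝔮)) := by
  classical
  obtain ⟨w, hwdef⟩ : ∃ w : ℕ, w = 2 * m - 1 := ⟨_, rfl⟩
  have hw : Odd w := ⟨m - 1, by omega⟩
  have hwR : (w : ℝ) = 2 * m - 1 := by
    have : w + 1 = 2 * m := by omega
    have h2 : ((w + 1 : ℕ) : ℝ) = ((2 * m : ℕ) : ℝ) := by rw [this]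
    push_cast at h2
    linarith
  have hwC : (w : ℂ) = 2 * m - 1 := by
    have h2 : ((w : ℝ) : ℂ) = ((2 * m - 1 : ℝ) : ℂ) := by rw [hwR]
    push_cast at h2
    exact h2
  have hmC : (m : ℂ) - (w : ℂ) / 2 = 1 / 2 := by rw [hwC]; ring
  have hw1 : (w : ℝ) / 2 + 1 = (m : ℝ) + 1 / 2 := by rw [hwR]; ring
  have hw2 : (w : ℝ) / 2 = (m : ℝ) - 1 / 2 := by rw [hwR]; ring
  obtain ⟨c, C, hc, hC, H⟩ := Pool.Agent.Helper13.BB.unif M hw
  refine ⟨c, C, hc, fun 𝔮 hbot htop g n θ hg hθ => ?_⟩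
  have HC : ∀ i, Pool.Agent.Helper13.BB.IsHc w 𝔮 (n i) (θ i) := fun i =>
    ⟨fun φ => by rw [hwdef]; exact (hθ i).weight φ, (hθ i).mul, (hθ i).ray⟩
  have hC0 : 0 ≤ C := by linarith
  obtain ⟨hRfin, hRcard⟩ := Pool.Agent.Helper13.BB.RC_card hbot htop
  have hRC : Pool.Agent.Helper13.BB.RC 𝔮 = Characters 𝔮 := rfl
  rw [hRC] at hRfin hRcard
  obtain ⟨L, hL1, hL2, hL3, hL4⟩ := Pool.Agent.Helper13.BB.asm hw hmC hC0 hc hbot htop hg HC
    (fun i => H (n i) (HC i).wt)
  rw [hRC] at hL1 hL2 hL3 hL4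
  have hUn : unitClasses 𝔮 = Pool.Agent.N784.AD.Un 𝔮 := rfl
  -- nonvanishing somewhere
  have hLtop : ∀ χ ∈ Characters 𝔮, ∀ z : ℂ, analyticOrderAt (L χ) z ≠ ⊤ := by
    intro χ hχ z
    exact Pool.Agent.N784.CZ.order_ne_top (hL1 χ hχ).1
      ((hL1 χ hχ).2.1 (((w : ℝ) / 2 + 2 : ℝ) : ℂ) (by rw [Complex.ofReal_re]; linarith)) z
  refine ⟨hRfin, L, fun χ hχ => ⟨(hL1 χ hχ).1, hLtop χ hχ m, fun s hs => ?_⟩, ?_, ?_, ?_⟩
  · exact (hL1 χ hχ).2.2 s (by rw [hw1]; exact hs)
  · rw [hUn]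
    exact hL3
  · rw [hUn]
    exact hL4
  intro K _ _ ι art hK S Γ hS hΓ
  have hK' : Pool.Agent.N784.CZ.IsRCF 𝔮 K ι art :=
    ⟨hK.mul, hK.invariants, hK.kernel, hK.unramified, hK.frobenius⟩
  have hplaces : ∀ i (v : HeightOneSpectrum (𝓞 K)), ¬ 𝔮.map ι ≤ v.asIdeal →
      ‖Pool.Agent.Helper13.CM.bet (θ i) ι v‖ ^ 2 = (Ideal.absNorm v.asIdeal : ℝ) ^ w :=
    fun i v hv => (Pool.Agent.Helper13.BB.places Pool.Agent.N400.CZ.t_split hw (HC i) hbot htop ι art
      hK' v hv).2.1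
  have hn2 : ∀ v : HeightOneSpectrum (𝓞 K), 2 ≤ Ideal.absNorm v.asIdeal :=
    fun v => Pool.Agent.H921R2.TatePole.two_le_nm v
  -- the product over the characters
  obtain ⟨G, hG⟩ : ∃ G : ℂ → ℂ, G = fun s => ∏ χ ∈ hRfin.toFinset, L χ s := ⟨_, rfl⟩
  have hGd : Differentiable ℂ G := by
    rw [hG]
    exact Differentiable.fun_finsetProd fun χ hχ => (hL1 χ (hRfin.mem_toFinset.1 hχ)).1
  have hGord : analyticOrderAt G m =
      ((∑ χ ∈ hRfin.toFinset, analyticOrderNatAt (L χ) m : ℕ) : ℕ∞) := by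
    rw [hG, Pool.Agent.N784.CZ.order_prod hRfin.toFinset (fun χ s => L χ s) _
      (fun χ hχ => (hL1 χ (hRfin.mem_toFinset.1 hχ)).1.analyticAt _)]
    push_cast
    refine Finset.sum_congr rfl fun χ hχ => ?_
    exact (Nat.cast_analyticOrderNatAt (hLtop χ (hRfin.mem_toFinset.1 hχ) m)).symm
  have hGprod : ∀ s : ℂ, (m : ℝ) + 1 / 2 < s.re → HasProd (fun v : HeightOneSpectrum (𝓞 K) =>
      if 𝔮.map ι ≤ v.asIdeal then 1 else ∏ i, (Pool.Agent.Helper13.BB.lf
        (Pool.Agent.Helper13.CM.bet (θ i) ι v) (Ideal.absNorm v.asIdeal) s)⁻¹) (G s) := by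
    intro s hs
    have hs' : (w : ℝ) / 2 + 1 < s.re := by rw [hw1]; exact hs
    have h1 := hL2 s hs'
    rw [finprod_mem_eq_finite_toFinset_prod _ hRfin] at h1
    have h2 : G s = ∏ χ ∈ hRfin.toFinset, L χ s := by rw [hG]
    rw [h2, h1]
    have h3 : HasProd (fun v : HeightOneSpectrum (𝓞 K) => ∏ i : Fin g,
        (if 𝔮.map ι ≤ v.asIdeal then 1 else (Pool.Agent.Helper13.BB.lf
        (Pool.Agent.Helper13.CM.bet (θ i) ι v) (Ideal.absNorm v.asIdeal) s)⁻¹))
        (∏ i, ∏ᶠ F ∈ Pool.Agent.N784.HC.Dn (Pool.Agent.Helper13.BB.rd (n i)) htop,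
          Pool.Agent.Y773.LI (Pool.Agent.Y773.IQ.ofM' htop F) (s - (w : ℂ) / 2)) := by
      apply hasProd_prod
      intro i _
      exact Pool.Agent.Helper13.BB.glue Pool.Agent.N400.CZ.t_split Pool.Agent.N717.CZ.t_local hw
        (HC i) hbot htop ι art hK' s hs'
    refine h3.congr_fun fun v => ?_
    by_cases hv : 𝔮.map ι ≤ v.asIdeal
    · simp only [if_pos hv, Finset.prod_const_one]
    · simp only [if_neg hv]
  -- the numerator at the places of `S` not dividing `𝔮`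
  set b : Fin g → HeightOneSpectrum (𝓞 K) → ℂ := fun i v =>
    Pool.Agent.Helper13.CM.bet (θ i) ι v with hb
  set q : HeightOneSpectrum (𝓞 K) → ℂ → ℂ := fun v s =>
    if 𝔮.map ι ≤ v.asIdeal then 1
    else ∏ i, Pool.Agent.Helper13.BB.lf (b i v) (Ideal.absNorm v.asIdeal) s with hq
  have hqdiff : ∀ v, Differentiable ℂ (q v) := by
    intro v
    rw [hq]
    by_cases h : 𝔮.map ι ≤ v.asIdeal
    · simp only [if_pos h]
      exact differentiable_const _
    · simp only [if_neg h]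
      exact Differentiable.fun_finsetProd fun i _ => Pool.Agent.Helper13.BB.lf_diff _ (hn2 v)
  have hqne : ∀ v (s : ℂ), (m : ℝ) - 1 / 2 < s.re → q v s ≠ 0 := by
    intro v s hs
    rw [hq]
    by_cases h : 𝔮.map ι ≤ v.asIdeal
    · simp only [if_pos h]
      exact one_ne_zero
    · simp only [if_neg h]
      rw [Finset.prod_ne_zero_iff]
      intro i _
      exact Pool.Agent.Helper13.BB.lf_ne (w := w) (hn2 v) (hplaces i v h).le (by rw [hw2]; exact hs)
  set P : HeightOneSpectrum (𝓞 K) → ℂ → ℂ := fun v s => localPoly Γ s v with hP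
  have hlp : ∀ (T : Multiset ℂ) (v : HeightOneSpectrum (𝓞 K)), Differentiable ℂ fun s : ℂ =>
      (T.map fun γ => 1 - γ * (Ideal.absNorm v.asIdeal : ℂ) ^ (-s)).prod := by
    intro T v
    induction T using Multiset.induction_on with
    | empty =>
      simp only [Multiset.map_zero, Multiset.prod_zero]
      exact differentiable_const _
    | cons γ T ih =>
      simp only [Multiset.map_cons, Multiset.prod_cons]
      exact (Pool.Agent.Helper13.BB.lf_diff γ (hn2 v)).mul ih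
  have hPdiff : ∀ v, Differentiable ℂ (P v) := fun v => hlp (Γ v) v
  have hPne : ∀ v ∈ S, ∀ s : ℂ, (m : ℝ) - 1 / 2 < s.re → P v s ≠ 0 := by
    intro v hv s hs
    rw [hP]
    unfold localPoly
    intro h00
    have h0 := Multiset.prod_eq_zero_iff.1 h00
    rw [Multiset.mem_map] at h0
    obtain ⟨γ, hγ, h1⟩ := h0
    have hv0 : (0 : ℝ) < (Ideal.absNorm v.asIdeal : ℝ) := by
      have := hn2 v
      exact_mod_cast (by omega : 0 < Ideal.absNorm v.asIdeal)
    refine Pool.Agent.Helper13.BB.lf_ne (w := w) (β := γ) (hn2 v) ?_ (by rw [hw2]; exact hs) h1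
    have h2 := hΓ v hv γ hγ
    have h3 : ((Ideal.absNorm v.asIdeal : ℝ) ^ ((m : ℝ) - 1 / 2)) ^ 2 =
        (Ideal.absNorm v.asIdeal : ℝ) ^ w := by
      rw [← Real.rpow_natCast, ← Real.rpow_mul hv0.le, ← Real.rpow_natCast]
      congr 1
      push_cast
      rw [hwR]
      ring
    rw [← h3]
    exact pow_le_pow_left₀ (norm_nonneg _) h2 2
  set R : ℂ → ℂ := fun s => ∏ v ∈ S, (q v s * (P v s)⁻¹) with hR
  have hRan : ∀ s : ℂ, (m : ℝ) - 1 / 2 < s.re → AnalyticAt ℂ R s := by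
    intro s hs
    rw [hR]
    apply Finset.analyticAt_fun_prod
    intro v hv
    exact ((hqdiff v).analyticAt s).mul (((hPdiff v).analyticAt s).inv (hPne v hv s hs))
  have hRne : ∀ s : ℂ, (m : ℝ) - 1 / 2 < s.re → R s ≠ 0 := by
    intro s hs
    rw [hR]
    simp only
    rw [Finset.prod_ne_zero_iff]
    intro v hv
    exact mul_ne_zero (hqne v s hs) (inv_ne_zero (hPne v hv s hs))
  have hm2 : (m : ℝ) - 1 / 2 < ((m : ℂ)).re := by
    rw [Complex.natCast_re]
    linarith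
  have hord : analyticOrderAt (fun s => G s * R s) m =
      ((∑ χ ∈ hRfin.toFinset, analyticOrderNatAt (L χ) m : ℕ) : ℕ∞) := by
    rw [Pool.Agent.W164.RC.order_mul_ne (hGd.analyticAt _) (hRan _ hm2) (hRne _ hm2), hGord]
  have hordN : analyticOrderNatAt (fun s => G s * R s) m =
      ∑ χ ∈ hRfin.toFinset, analyticOrderNatAt (L χ) m := by
    unfold analyticOrderNatAt at hord ⊢
    rw [hord]
    exact ENat.toNat_natCast _
  refine ⟨fun s => G s * R s, ⟨?_, ?_, ?_⟩, ?_, ?_, ?_⟩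
  · intro s hs
    exact (hGd.analyticAt s).mul (hRan s hs)
  · intro s hs
    have hs' : (m : ℝ) - 1 / 2 < s.re := by linarith
    have h3 : HasProd (fun v : HeightOneSpectrum (𝓞 K) =>
        if v ∈ S then q v s * (P v s)⁻¹ else 1) (R s) := by
      have h4 : R s = ∏ v ∈ S, (if v ∈ S then q v s * (P v s)⁻¹ else 1) := by
        rw [hR]
        exact Finset.prod_congr rfl fun v hv => by rw [if_pos hv]
      rw [h4]
      apply hasProd_prod_of_ne_finset_one
      intro v hv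
      rw [if_neg hv]
    have h5 := (hGprod s hs).mul h3
    refine h5.congr_fun ?_
    intro v
    unfold factor
    by_cases hv : v ∈ S
    · rw [if_pos hv, if_pos hv]
      have hg1 := hqne v s hs'
      by_cases hvq : 𝔮.map ι ≤ v.asIdeal
      · rw [if_pos hvq]
        have : q v s = 1 := by rw [hq]; simp only [if_pos hvq]
        rw [this, one_mul, one_mul]
      · rw [if_neg hvq]
        have : q v s = ∏ i, Pool.Agent.Helper13.BB.lf (b i v) (Ideal.absNorm v.asIdeal) s := by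
          rw [hq]; simp only [if_neg hvq]
        rw [Finset.prod_inv_distrib, ← this, ← mul_assoc, inv_mul_cancel₀ hg1, one_mul]
    · have hvq : ¬ 𝔮.map ι ≤ v.asIdeal := fun h => hv (hS v h)
      rw [if_neg hv, if_neg hv, if_neg hvq, mul_one]
      rfl
  · refine ⟨fun s => G s * ∏ v ∈ S, q v s, ?_, ?_⟩
    · exact hGd.mul (Differentiable.fun_finsetProd fun v _ => hqdiff v)
    · intro s hs
      have h3 : ∏ v ∈ S, localPoly Γ s v = ∏ v ∈ S, P v s := rfl
      rw [h3]
      show G s * ∏ v ∈ S, q v s = G s * R s * ∏ v ∈ S, P v s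
      rw [hR, mul_assoc, ← Finset.prod_mul_distrib]
      congr 1
      refine Finset.prod_congr rfl fun v hv => ?_
      rw [mul_assoc, inv_mul_cancel₀ (hPne v hv s hs), mul_one]
  · rw [hord]
    exact ENat.coe_ne_top _
  · rw [hordN, finsum_mem_eq_finite_toFinset_sum _ hRfin]
  · have h1 : ((analyticOrderNatAt (fun s => G s * R s) m : ℕ) : ℝ) =
        ∑ᶠ χ ∈ Characters 𝔮, (analyticOrderNatAt (L χ) m : ℝ) := by
      rw [hordN, finsum_mem_eq_finite_toFinset_sum _ hRfin]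
      push_cast
      rfl
    have h2 : ((Characters 𝔮).ncard : ℝ) =
        (Module.finrank ℚ K : ℝ) / (Module.finrank ℚ M : ℝ) := by
      have h7 := Pool.Agent.N134.CZ.t_deg M 𝔮 hbot htop K ι art hK'
      have h8 : 0 < Module.finrank ℚ M := Module.finrank_pos
      have h9 : (0 : ℝ) < Module.finrank ℚ M := by exact_mod_cast h8
      rw [h7, hRcard]
      push_cast
      field_simp
    rw [h1, ← h2, hUn]
    exact hL4

end Pool.Agent.Results.MP_b8021b_nt.EveryBaseField
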