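import Pool.Agent.Helper56.BBUniv.Main

/-!
# Finiteness of the ranks of Chow groups from the finiteness of one multiplicity

Let `F` be a number field, `G` its absolute Galois group, and `n`, `r` natural numbers. The conjecture
of Beilinson and Bloch contains the statement that the groups `CH^r_hom(X)` of the homologically
trivial cycles of codimension `r`, modulo rational equivalence, on the smooth projective varieties `X`
over the finite extensions `L` of `F` have finite rank.

Let `Δ` be a finite group and let `E` be a finite-dimensional representation of `G × Δ` over `ℚ` such
that an open subgroup of `G` acts trivially, that is, an Artin representation with an action of `Δ`. Let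
`Y` be a variety of dimension `n` over `F`, for example the projective space. For a variety `X` of
dimension `n` over `F` with an action of `Δ` over `F` and a `Δ`-invariant generically finite surjective
morphism to `Y`, the multiplicity of `E` is the dimension of the space of the `G × Δ`-equivariant linear
maps from `E` to `CH^r_hom(X_k) ⊗ ℚ`, where `k` is the algebraic closure of `F`.

**Theorem.** The following are equivalent.
1. For all finite extensions `L` of `F` and all `X` of dimension `n` over `L` the rank of
   `CH^r_hom(X)` is finite.
2. There is ONE finite group `Δ` and ONE nonzero representation `E` whose multiplicity is finite for all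
   varieties `X` above `Y`.

So if the rank of `CH^r_hom(X)` is infinite for one variety `X` of dimension `n` over one finite
extension of `F`, then for every `Y` of dimension `n` over `F`, every finite group `Δ` and every
representation `E ≠ 0` there is a variety `X` above `Y` for which the multiplicity of `E` is infinite.
For example, it is enough to show for one quadratic character of `G` that the corresponding part of
`CH^r_hom(X_k) ⊗ ℚ` is finite-dimensional, for all varieties `X` over `F` with a generically finite
morphism to the projective space; or that the part on which one involution of `X` over the projective
space acts by `-1` is finite-dimensional over `F`.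

The same is true for every family of subspaces of the numerically trivial cycles which is stable under
pull-backs and conjugation, for example for the kernels of the Abel-Jacobi maps.

Proof. Let `S` be a variety over `L` and let `T` be the space of the cycles in `CH^r_hom(S) ⊗ ℚ`, of
infinite dimension. One may assume that `S` is a variety over `F` and that all elements of `T` are fixed
by the same open subgroup of `G`. Let `L'` be a finite Galois extension of `F` such that the Galois
group of `k` over `L'` fixes `T` and acts trivially on `E`, let `Γ` be the Galois group of `L'` over `F`,
and `V` a `Δ`-invariant complete intersection of dimension `n` in the product of `Y` and the restriction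
of scalars of `S^{M × Δ}` from `L'` to `F`, where `M` is the dimension of `E`. It has projections
`p i m d : V ⟶ S` over `k`, and `(p i m d)_* (p i' m' d')^*` kills numerically trivial cycles, unless
the indices are equal. If `λ_m` are coordinates on `E`, then
`e ↦ ∑ λ_m ((i⁻¹, d) e) (p i m d)^* (i t)` is equivariant for all `t` in `T`, and its composition with
the push-forward along `p 1 m 1` is `e ↦ λ_m (e) κ t`. So `T` embeds into the space of the equivariant
maps.
-/

open CategoryTheory AlgebraicGeometry

universe u v w x y

namespace Pool.Agent.Results.MP_b8021b_nt.FiniteMultiplicities

open Pool.Agent.H914 Pool.Agent.H914.VarClass Pool.Agent.H914.VarClass.Obj Pool.Agent.W492.BB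
  Pool.Agent.TH133 Pool.Agent.V1157.PO Pool.Agent.Helper56.DUniv Pool.Agent.Helper56.BBUniv

theorem result {k : Type u} [Field k] {𝒱 : VarClass k} {C : TheoryData.{u, v, 0} 𝒱 ℚ}
    [IsChowProj C] {K : Type w} [Field K] (H : WeilTheoryData.{u, v, w} C K) [IsWeilProj H]
    {G : Type x} [Group G] [TopologicalSpace G] [IsTopologicalGroup G] [CompactSpace G]
    [TotallyDisconnectedSpace G] (R : FormData.{u, v, x, y} G C) (hR : IsGalois R) (n r : ℕ)
    (hS : GaloisStable R H r) (hI : HasInvariantIntersections R n) (Y : R.Form)
    (hYG : R.grp Y = ⊤) (hY : (R.obj Y).dim = n) :
    ((∀ X : R.Form, (R.obj X).dim = n → FiniteRank R (HomTrivial H r) X) ↔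
      OneFinite R (HomTrivial H r) Y n) ∧
    ∀ P : ∀ X : 𝒱.Obj, C.A X → Prop, IsFamily R n r P →
      ((∀ X : R.Form, (R.obj X).dim = n → FiniteRank R P X) ↔ OneFinite R P Y n) :=
  ⟨law hR (isFamily_hom hS) hI hYG hY, fun _ hP => law hR hP hI hYG hY⟩

end Pool.Agent.Results.MP_b8021b_nt.FiniteMultiplicities
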