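import Pool.Agent.Helper13.PP.Cor

/-!
# Beilinson–Bloch: twists of order zero, for every modulus and every large group of twists

`M` is ANY number field and `θ` a Hecke character of `M` modulo `𝔮` of weight `2 m - 1` (of type `A₀`; then
`M` has no real embeddings).  Such characters are the constituents of `V = H^(2m-1)(X)` for the smooth
projective varieties `X` over `M` for which `V` is potentially abelian over `M`: abelian varieties with
complex multiplication defined over `M`, their products (all `m`), Fermat hypersurfaces.  For an abelian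
extension `K` of `M` of conductor dividing `𝔮` the group `X` of the characters of `Gal(K/M)` is a subgroup
of the group of the `h` characters of the (narrow) ray class group modulo `𝔮`, and every subgroup `X` is
of this form.  The `(θ, χ)`-component of `CH^m(X_K)_hom ⊗ ℂ` (with the action of the correspondences
and of the Galois group) should have as dimension the order of `L(θ χ, s)` at `s = m`.

Put `I = h U / #X`, where `U` is the number of the residue classes modulo `𝔮` which contain a unit of `M`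
(for `M` imaginary quadratic `U ≤ 6`, and `I` is the index of `X` up to this factor).  We prove, with
a constant `c > 0` which depends only on `M` and `m`: if `N(𝔮) ≥ 1 / c` and `I ≤ N(𝔮)^(1/20)` then for at
least `(c / I) #X` of the characters `χ` in `X` the function `L(θ χ, s)` has no zero in the disc
`|s - m| ≤ c / (I log N(𝔮))`; in particular the order of `L(θ χ, s)` at `s = m` is `0`.  (The group
law on the characters is the product of functions; a nonempty finite set closed under products is a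
group.)

For `M` imaginary quadratic and `X` the group of ALL the characters: a positive proportion of all the
twists modulo EVERY ideal `𝔮` has order zero, with a zero-free disc of radius `c / log N(𝔮)`.

Proof.  The first and the second moment of `L(θ χ, s) M(θ χ, s)`, `M` a mollifier of length
`N(𝔮)^(1/8)`.  Second moment: the library's mollified large sieve over all characters modulo `𝔮` (to
the right of the centre) is carried to the points at distance `1 / log N(𝔮)` of the centre by the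
functional equation (`PP.Lsn`, `PP.Mnl`, `PP.Mom`).  First moment, new: at the centre the
L-function is replaced by a smoothly cut Dirichlet series of length `N(𝔮)^(17/10)` (`PP.Rep`, `PP.Gro`),
the orthogonality relations for the group `X` and the number of the ideals in the classes at which `X` is
trivial (`PP.Orth`) show that only the ideal `(1)` contributes (`PP.Fst`; the mollifier kills
the small ideals, the large ones are rare).  The zero-free discs: a Chebyshev inequality for the means over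
the circle of radius `1 / log N(𝔮)` (`PP.Circ`, `PP.Nv`).
-/

set_option autoImplicit false

open Complex NumberField IsDedekindDomain

namespace Pool.Agent.Results.MP_b8021b_nt.NonvanishingTwists

section

variable {M : Type} [Field M] [NumberField M]

/-- `θ`, a function on the ideals, is a Hecke character of `M` modulo `𝔮` (its conductor divides `𝔮`)
of infinity type `n` and of weight `2 m - 1`:
* `n φ + n (conj φ) = 2 m - 1` for all embeddings `φ` (so `M` has no real embeddings),
* `θ` is multiplicative on the ideals prime to `𝔮`,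
* `θ((x)) = ∏ φ(x) ^ n(φ)` for `x ≡ 1 mod 𝔮`.
Only the values of `θ` at the ideals prime to `𝔮` are used. -/
structure IsHeckeCharacter (m : ℕ) (𝔮 : Ideal (𝓞 M)) (n : (M →+* ℂ) → ℕ)
    (θ : Ideal (𝓞 M) → ℂ) : Prop where
  weight : ∀ φ : M →+* ℂ, n φ + n ((starRingEnd ℂ).comp φ) = 2 * m - 1
  mul : ∀ 𝔞 𝔟 : Ideal (𝓞 M), IsCoprime 𝔞 𝔮 → IsCoprime 𝔟 𝔮 → θ (𝔞 * 𝔟) = θ 𝔞 * θ 𝔟
  ray : ∀ x : 𝓞 M, x - 1 ∈ 𝔮 → θ (Ideal.span {x}) = ∏ φ : M →+* ℂ, φ (x : M) ^ n φ

/-- The characters of the narrow ray class group modulo `𝔮`, as functions on the ideals: they vanish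
exactly at the ideals which are not prime to `𝔮`, are multiplicative, and `χ((x)) = 1` for the totally
positive `x ≡ 1 mod 𝔮`. -/
def Characters (𝔮 : Ideal (𝓞 M)) : Set (Ideal (𝓞 M) → ℂ) :=
  {χ | (∀ 𝔞, χ 𝔞 ≠ 0 ↔ IsCoprime 𝔞 𝔮) ∧ (∀ 𝔞 𝔟, χ (𝔞 * 𝔟) = χ 𝔞 * χ 𝔟) ∧
    ∀ x : 𝓞 M, x - 1 ∈ 𝔮 → (∀ τ : M →+* ℝ, 0 < τ x) → χ (Ideal.span {x}) = 1}

/-- `Λ` is the L-function of `θ χ`, without the Euler factors at the primes dividing `𝔮` (`χ` is zero
there): it is entire and for `Re s > m + 1/2` it is the product over all primes `𝔭` of `M` of the factors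
`(1 - θ(𝔭) χ(𝔭) N(𝔭)^(-s))⁻¹`. -/
structure IsTwistedLFunction (m : ℕ) (θ χ : Ideal (𝓞 M) → ℂ) (Λ : ℂ → ℂ) : Prop where
  entire : Differentiable ℂ Λ
  euler : ∀ s : ℂ, (m : ℝ) + 1 / 2 < s.re → HasProd (fun 𝔭 : HeightOneSpectrum (𝓞 M) =>
    (1 - θ 𝔭.asIdeal * χ 𝔭.asIdeal * (Ideal.absNorm 𝔭.asIdeal : ℂ) ^ (-s))⁻¹) (Λ s)

/-- the number of residue classes modulo `𝔮` which contain a unit of `M` -/
noncomputable def unitClasses (𝔮 : Ideal (𝓞 M)) : ℕ :=
  (Set.range (fun u : (𝓞 M)ˣ => Ideal.Quotient.mk 𝔮 (u : 𝓞 M))).ncard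

end

/-- **Main theorem.** Let `M` be a number field and `m ≥ 1`.  There is `c > 0` such that for all ideals
`𝔮 ≠ 0, (1)` of `M` and all Hecke characters `θ` of `M` modulo `𝔮` of weight `2 m - 1` the L-functions
`L χ = L(θ χ, s)` of the twists by the (finitely many) characters `χ` of the narrow ray class group modulo
`𝔮` exist, and if `N(𝔮) ≥ 1 / c` then for every group `X` of such characters and every `I` with
`h U ≤ I #X` (`h` the number of all the `χ`) and `I ≤ N(𝔮)^(1/20)`: for at least `(c / I) #X` of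
the `χ` in `X` the function `L χ` has no zero in the disc of centre `m` and radius `c / (I log N(𝔮))`. -/
theorem result (M : Type) [Field M] [NumberField M] (m : ℕ) (hm : 1 ≤ m) :
    ∃ c : ℝ, 0 < c ∧ ∀ 𝔮 : Ideal (𝓞 M), 𝔮 ≠ ⊥ → 𝔮 ≠ ⊤ →
    ∀ (n : (M →+* ℂ) → ℕ) (θ : Ideal (𝓞 M) → ℂ), IsHeckeCharacter m 𝔮 n θ →
    (Characters 𝔮).Finite ∧ ∃ L : (Ideal (𝓞 M) → ℂ) → ℂ → ℂ,
      (∀ χ ∈ Characters 𝔮, IsTwistedLFunction m θ χ (L χ)) ∧
      (1 / c ≤ (Ideal.absNorm 𝔮 : ℝ) →
        ∀ X ⊆ Characters 𝔮, X.Nonempty → (∀ χ ∈ X, ∀ χ' ∈ X, χ * χ' ∈ X) →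
        ∀ I : ℝ, ((Characters 𝔮).ncard : ℝ) * unitClasses 𝔮 ≤ I * X.ncard →
          I ≤ (Ideal.absNorm 𝔮 : ℝ) ^ (1 / 20 : ℝ) →
          c * X.ncard ≤ I * {χ ∈ X | ∀ s : ℂ,
            ‖s - m‖ ≤ c / (I * Real.log (Ideal.absNorm 𝔮)) → L χ s ≠ 0}.ncard) := by
  obtain ⟨w, hwdef⟩ : ∃ w : ℕ, w = 2 * m - 1 := ⟨_, rfl⟩
  have hw : Odd w := ⟨m - 1, by omega⟩
  have hwR : (w : ℝ) = 2 * m - 1 := by
    have : w + 1 = 2 * m := by omega
    have h2 : ((w + 1 : ℕ) : ℝ) = ((2 * m : ℕ) : ℝ) := by rw [this]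
    push_cast at h2
    linarith
  have hwC : (w : ℂ) = 2 * m - 1 := by
    have h2 : ((w : ℝ) : ℂ) = ((2 * m - 1 : ℝ) : ℂ) := by rw [hwR]
    push_cast at h2
    exact h2
  have hmC : ((w : ℂ) + 1) / 2 = m := by rw [hwC]; ring
  have hw1 : (w : ℝ) / 2 + 1 = (m : ℝ) + 1 / 2 := by rw [hwR]; ring
  obtain ⟨c, hc, H⟩ := Pool.Agent.Helper13.PP.unif_nv M hw
  refine ⟨c, hc, fun 𝔮 hbot htop n θ hθ => ?_⟩
  have HC : Pool.Agent.Helper13.BB.IsHc w 𝔮 n θ :=
    ⟨fun φ => by rw [hwdef]; exact hθ.weight φ, hθ.mul, hθ.ray⟩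
  obtain ⟨L, h1, h2⟩ := Pool.Agent.Helper13.PP.asm_nv hw hbot htop HC (H n HC.wt)
  refine ⟨(Pool.Agent.Helper13.BB.RC_card hbot htop).1, L, fun χ hχ => ⟨(h1 χ hχ).1, fun s hs =>
    (h1 χ hχ).2 s (by rw [hw1]; exact hs)⟩, ?_⟩
  intro hN X hX hne hmul I hI1 hI2
  have h3 := h2 X hX hne hmul I hI1 hN hI2
  rw [hmC] at h3
  exact h3

end Pool.Agent.Results.MP_b8021b_nt.NonvanishingTwists
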